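import Pool.Agent.H2.Egz1

/-! The Berger–Wang conjecture on the modified Erdős–Ginzburg–Ziv constant of `(ℤ/2^k)^d`. -/

namespace Pool.Agent.Results.MP_4c442e_co.BW

open Multiset Pool.Agent.H2.Egz

/-- the set of `L` such that every zero-sum sequence over `G` of length at least `L` has a
zero-sum subsequence of length exactly `t`; `s'_t(G)` is its least element -/
def Good (G : Type) [AddCommGroup G] (t : ℕ) : Set ℕ :=
  {L | ∀ A : Multiset G, A.sum = 0 → L ≤ card A → ∃ B ≤ A, card B = t ∧ B.sum = 0}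

variable {d : ℕ}

def cst (n : ℕ) : V d →+ (Fin d → ZMod n) where
  toFun x i := (x i : ZMod n)
  map_zero' := by ext; simp
  map_add' x y := by ext; simp

lemma cst_apply (n : ℕ) (x : V d) (i : Fin d) : cst n x i = (x i : ZMod n) := rfl

def lft (n : ℕ) (g : Fin d → ZMod n) : V d := fun i => ZMod.cast (g i)

lemma cst_lft (n : ℕ) (g : Fin d → ZMod n) : cst n (lft n g) = g := by
  ext i; exact ZMod.intCast_zmod_cast _

lemma map_cst_lft (n : ℕ) (A : Multiset (Fin d → ZMod n)) : (A.map (lft n)).map (cst n) = A := by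
  rw [map_map]; simp [Function.comp_def, cst_lft]

def FreeG (n : ℕ) (A : Multiset (Fin d → ZMod n)) : Prop := ¬ ∃ B ≤ A, card B = n ∧ B.sum = 0

lemma FreeG.lift {n : ℕ} {A : Multiset (Fin d → ZMod n)} (h : FreeG n A) :
    Free n (A.map (lft n)) := by
  intro B hB hc hs
  refine h ⟨B.map (cst n), (map_le_map hB).trans (map_cst_lft n A).le, by simpa using hc, ?_⟩
  rw [← map_multiset_sum]
  ext i
  exact (ZMod.intCast_zmod_eq_zero_iff_dvd _ _).2 (hs i)

lemma cst_eq {n : ℕ} {x y : V d} : cst n x = cst n y ↔ ∀ i, (n : ℤ) ∣ x i - y i := by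
  rw [funext_iff]
  refine forall_congr' fun i => ?_
  rw [cst_apply, cst_apply, eq_comm, ZMod.intCast_eq_intCast_iff_dvd_sub]

lemma count_rep {α β : Type*} [Fintype α] [DecidableEq β] {τ : α → β} (hτ : Function.Injective τ)
    (c : α → ℕ) (a : α) : count (τ a) (∑ ε, replicate (c ε) (τ ε)) = c a := by
  rw [count_sum', Finset.sum_eq_single a]
  · simp
  · intro b _ hb
    rw [count_replicate, if_neg fun h => hb (hτ h)]
  · simp

lemma mem_rep {α β : Type*} [Fintype α] {τ : α → β} {c : α → ℕ} {b : β}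
    (h : b ∈ ∑ ε, replicate (c ε) (τ ε)) : ∃ a, b = τ a := by
  obtain ⟨a, -, ha⟩ := Multiset.mem_sum.1 h
  exact ⟨a, eq_of_mem_replicate ha⟩

lemma sum_rep {α β : Type*} [Fintype α] [AddCommMonoid β] (τ : α → β) (c : α → ℕ) :
    (∑ ε, replicate (c ε) (τ ε)).sum = ∑ ε, c ε • τ ε := by
  have := map_sum (Multiset.sumAddMonoidHom (M := β)) (fun ε => replicate (c ε) (τ ε)) Finset.univ
  simpa only [Multiset.coe_sumAddMonoidHom, sum_replicate] using this

lemma upper {k : ℕ} (hd : 1 ≤ d) (hdk : d ≤ k) (A : Multiset (Fin d → ZMod (2 ^ k)))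
    (hs : A.sum = 0) (hc : card A = (2 ^ k - 1) * 2 ^ d) : ¬ FreeG _ A := by
  classical
  intro hA
  obtain ⟨h1, h2⟩ := (harb k _ hA.lift).2 (by simpa using hc)
  obtain ⟨j, rfl⟩ : ∃ j, k = d + j := ⟨k - d, by omega⟩
  have hd2 : 2 ≤ 2 ^ d := by
    calc 2 = 2 ^ 1 := rfl
      _ ≤ 2 ^ d := Nat.pow_le_pow_right (by norm_num) hd
  have hj : 1 ≤ 2 ^ j := Nat.one_le_two_pow
  obtain ⟨m, hm⟩ : ∃ m, 2 ^ j = m + 1 := ⟨2 ^ j - 1, by omega⟩
  have hn : 2 ^ (d + j) = 2 ^ d * m + 2 ^ d := by rw [pow_add, hm]; ring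
  have hex : ∀ ε : E d, ∃ x ∈ A.map (lft _), par x = ε := by
    intro ε
    have : 0 < count ε ((A.map (lft _)).map par) := by rw [h2]; omega
    exact mem_map.1 (count_pos.1 this)
  choose t ht hpar using hex
  set τ : E d → Fin d → ZMod (2 ^ (d + j)) := fun ε => cst _ (t ε) with hτ
  have hinj : Function.Injective τ := by
    intro a b hab
    rw [← hpar a, ← hpar b, par_eq_iff]
    intro i
    refine dvd_trans ?_ (cst_eq.1 hab i)
    push_cast
    exact dvd_pow_self 2 (by omega)
  have hle : ∀ c : E d → ℕ, (∀ ε, c ε ≤ 2 ^ (d + j) - 1) → ∑ ε, replicate (c ε) (τ ε) ≤ A := by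
    intro c hc
    rw [le_iff_count]
    intro g
    by_cases hg : g ∈ ∑ ε, replicate (c ε) (τ ε)
    · obtain ⟨a, rfl⟩ := mem_rep hg
      rw [count_rep hinj]
      refine (hc a).trans ?_
      rw [← h2 a]
      conv_rhs => rw [← map_cst_lft _ A]
      rw [count_map, count_map]
      apply card_le_card
      rw [le_filter]
      refine ⟨filter_le _ _, fun x hx => ?_⟩
      have hx' := mem_filter.1 hx
      exact cst_eq.2 (h1 _ (ht a) _ hx'.1 ((hpar a).trans hx'.2))
    · rw [count_eq_zero_of_notMem hg]; exact Nat.zero_le _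
  have hA' : ∑ ε, replicate (2 ^ (d + j) - 1) (τ ε) = A := by
    apply eq_of_le_of_card_le (hle _ fun _ => le_rfl)
    rw [hc, Multiset.card_sum]
    simp [mul_comm]
  have hT : ∑ ε, τ ε = 0 := by
    rw [← hA', sum_rep τ fun _ => 2 ^ (d + j) - 1, ← Finset.smul_sum] at hs
    have h0 : (2 ^ (d + j) - 1 + 1) • ∑ ε, τ ε = 0 := by
      rw [show 2 ^ (d + j) - 1 + 1 = 2 ^ (d + j) by omega]
      ext i
      rw [Pi.smul_apply, nsmul_eq_mul, ZMod.natCast_self, zero_mul, Pi.zero_apply]
    rwa [succ_nsmul, hs, zero_add] at h0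
  obtain ⟨c, hc1, hc2⟩ := repr_sum t hpar j 0
  refine hA ⟨∑ ε, replicate (1 + 2 ^ d * c ε) (τ ε), hle _ fun ε => ?_, ?_, ?_⟩
  · have : c ε ≤ m := by
      have := Finset.single_le_sum (f := c) (fun _ _ => Nat.zero_le _) (Finset.mem_univ ε)
      omega
    have := Nat.mul_le_mul_left (2 ^ d) this
    omega
  · rw [Multiset.card_sum]
    simp only [card_replicate, Finset.sum_add_distrib, ← Finset.mul_sum, hc1, Finset.sum_const,
      Finset.card_univ, card_E, smul_eq_mul, mul_one]
    rw [hn, hm]; simp; ring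
  · rw [sum_rep τ fun ε => 1 + 2 ^ d * c ε]
    simp only [add_smul, one_smul, Finset.sum_add_distrib, hT, zero_add]
    ext i
    have := mul_dvd_mul_left (2 ^ d : ℤ) (hc2 i)
    rw [← pow_add] at this
    have h3 := (ZMod.intCast_zmod_eq_zero_iff_dvd _ (2 ^ (d + j))).2 (by exact_mod_cast this)
    simp only [Pi.zero_apply, sub_zero] at h3
    push_cast at h3
    rw [Finset.sum_apply, Pi.zero_apply, ← h3, Finset.mul_sum]
    refine Finset.sum_congr rfl fun ε _ => ?_
    simp [hτ, cst_apply, mul_assoc]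

def e0 (ε : E d) : V d := fun i => ((ε i).val : ℤ)

noncomputable def A0 (d n : ℕ) : Multiset (Fin d → ZMod n) :=
  ∑ ε : E d, replicate (n - 1) (cst n (e0 ε))

lemma card_A0 (n : ℕ) : card (A0 d n) = (n - 1) * 2 ^ d := by
  unfold A0
  rw [Multiset.card_sum]
  simp [mul_comm]

lemma val01 (a : ZMod 2) : a.val = 0 ∨ a.val = 1 := by
  have := ZMod.val_lt a; omega

lemma free_A0 {n : ℕ} (hn : 1 ≤ n) : FreeG n (A0 d n) := by
  classical
  rintro ⟨B, hB, hc, hs⟩
  rcases hn.eq_or_lt with rfl | hn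
  · have := card_le_card hB
    rw [card_A0] at this
    omega
  have : Fact (1 < n) := ⟨hn⟩
  have h01 : ∀ x ∈ B, ∀ i, x i = 0 ∨ x i = 1 := by
    intro x hx i
    obtain ⟨a, rfl⟩ := mem_rep (c := fun _ => n - 1) (mem_of_le hB hx)
    rcases val01 (a i) with h | h <;> simp [cst_apply, e0, h]
  have hsum : ∀ (i : Fin d) (C : Multiset (Fin d → ZMod n)), (∀ x ∈ C, x i = 0 ∨ x i = 1) →
      C.sum i = (card (C.filter fun x => x i = 1) : ZMod n) := by
    intro i C
    induction C using Multiset.induction_on with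
    | empty => simp
    | cons a C ih =>
      intro h
      rw [sum_cons, Pi.add_apply, ih fun x hx => h x (mem_cons_of_mem hx)]
      rcases h a (mem_cons_self _ _) with h' | h'
      · rw [filter_cons_of_neg _ (by rw [h']; exact zero_ne_one), h', zero_add]
      · rw [filter_cons_of_pos (p := fun x : Fin d → ZMod n => x i = 1) _ h', h', card_cons]; push_cast; ring
  obtain ⟨x, hx⟩ := card_pos_iff_exists_mem.1 (show 0 < card B by omega)
  have hall : ∀ y ∈ B, y = x := by
    intro y hy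
    ext i
    have h1 := hsum i B fun z hz => h01 z hz i
    rw [hs, Pi.zero_apply, eq_comm, ZMod.natCast_eq_zero_iff] at h1
    have h2 := card_le_card (filter_le (fun x => x i = 1) B)
    rcases Nat.eq_zero_or_pos (card (B.filter fun x => x i = 1)) with h3 | h3
    · rw [card_eq_zero, filter_eq_nil] at h3
      rw [(h01 y hy i).resolve_right (h3 y hy), (h01 x hx i).resolve_right (h3 x hx)]
    · have h4 := Nat.le_of_dvd h3 h1
      have h5 := eq_of_le_of_card_le (filter_le (fun x => x i = 1) B) (by omega)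
      rw [filter_eq_self] at h5
      rw [h5 y hy, h5 x hx]
  have hinj : Function.Injective fun ε : E d => cst n (e0 ε) := by
    intro a b hab
    ext i
    have := congrFun hab i
    apply ZMod.val_injective
    simp only [cst_apply, e0] at this
    rcases val01 (a i) with h | h <;> rcases val01 (b i) with h' | h' <;> simp [h, h'] at this ⊢
  obtain ⟨a, ha⟩ := mem_rep (c := fun _ => n - 1) (mem_of_le hB hx)
  have h1 := count_le_of_le x hB
  rw [eq_replicate_of_mem hall, count_replicate_self, hc, ha] at h1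
  have h2 := count_rep hinj (fun _ => n - 1) a
  unfold A0 at h1
  omega

lemma sum_e0 (i : Fin d) : 2 * ∑ ε : E d, e0 ε i = 2 ^ d := by
  classical
  have h := Equiv.sum_comp (Equiv.addRight (Pi.single i 1 : E d)) fun ε => e0 ε i
  rw [two_mul]
  nth_rewrite 1 [← h]
  rw [← Finset.sum_add_distrib, Finset.sum_congr rfl (g := fun _ => (1 : ℤ))]
  · simp
  · intro ε _
    simp only [e0, Equiv.coe_addRight, Pi.add_apply, Pi.single_eq_same]
    exact (by decide : ∀ a : ZMod 2, ((a + 1).val : ℤ) + a.val = 1) _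

theorem result (k d l : ℕ) (hd : 1 ≤ d) (hl : IsLeast {l | 2 ^ d ≤ l ∧ ¬ l ∣ 2 ^ k} l) :
    IsLeast (Good (Fin d → ZMod (2 ^ k)) (2 ^ k)) (2 ^ d * 2 ^ k + 1 - l) := by
  classical
  have hn : 1 ≤ 2 ^ k := Nat.one_le_two_pow
  have hd1 : 1 ≤ 2 ^ d := Nat.one_le_two_pow
  obtain ⟨m, hm⟩ : ∃ m, 2 ^ k = m + 1 := ⟨2 ^ k - 1, by omega⟩
  have hprod : 2 ^ d * 2 ^ k = (2 ^ k - 1) * 2 ^ d + 2 ^ d := by rw [hm]; simp; ring
  have hup : ∀ A : Multiset (Fin d → ZMod (2 ^ k)), FreeG _ A → card A ≤ (2 ^ k - 1) * 2 ^ d :=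
    fun A hA => by simpa using (harb k _ hA.lift).1
  rcases le_or_gt d k with hdk | hdk
  · have hl' : l = 2 ^ d + 1 := by
      apply le_antisymm
      · refine hl.2 ⟨by omega, fun h => ?_⟩
        have hodd : Odd (2 ^ d + 1) := Even.add_one (Even.pow_of_ne_zero even_two (by omega))
        have := (Nat.Coprime.pow_right k (Nat.coprime_two_right.2 hodd)).eq_one_of_dvd h
        omega
      · rcases hl.1.1.eq_or_lt with h | h
        · exact absurd (h ▸ pow_dvd_pow 2 hdk) hl.1.2
        · omega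
    rw [hl', show 2 ^ d * 2 ^ k + 1 - (2 ^ d + 1) = (2 ^ k - 1) * 2 ^ d by omega]
    refine ⟨fun A hs hc => ?_, fun L hL => ?_⟩
    · by_contra h
      exact upper hd hdk A hs (le_antisymm (hup A h) hc) h
    · by_contra hlt
      have hpos : 0 < card (A0 d (2 ^ k)) := by rw [card_A0]; omega
      obtain ⟨x, hx⟩ := card_pos_iff_exists_mem.1 hpos
      obtain ⟨A1, hA1⟩ := exists_cons_of_mem hx
      have hc1 : card A1 + 1 = (2 ^ k - 1) * 2 ^ d := by rw [← card_A0, hA1, card_cons]
      have hodd : Odd (card A1) := by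
        have : Even (card A1 + 1) := by
          rw [hc1]; exact (Even.pow_of_ne_zero even_two (by omega)).mul_left _
        exact Nat.not_even_iff_odd.1 (Nat.even_add_one.1 this)
      obtain ⟨u, hu⟩ := (ZMod.isUnit_iff_coprime (card A1) (2 ^ k)).2
        (Nat.Coprime.pow_right k (Nat.coprime_two_right.2 hodd))
      set g : Fin d → ZMod (2 ^ k) := fun i => -(↑u⁻¹ * A1.sum i) with hg
      have hsum : ∀ (C : Multiset (Fin d → ZMod (2 ^ k))) (g : Fin d → ZMod (2 ^ k)),
          (C.map (· + g)).sum = C.sum + card C • g := by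
        intro C g
        rw [sum_map_add]; simp
      obtain ⟨B, hB, hBc, hBs⟩ := hL (A1.map (· + g)) (by
        rw [hsum]
        ext i
        rw [Pi.add_apply, Pi.smul_apply, nsmul_eq_mul, ← hu, hg]
        simp) (by rw [card_map]; omega)
      refine free_A0 (d := d) hn ⟨B.map (· + -g), ?_, by simpa using hBc, ?_⟩
      · rw [hA1]
        refine ((map_le_map hB).trans (le_of_eq ?_)).trans (le_cons_self _ _)
        rw [map_map]; simp
      · rw [hsum, hBs, hBc, zero_add]
        ext i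
        rw [Pi.smul_apply, nsmul_eq_mul, ZMod.natCast_self, zero_mul, Pi.zero_apply]
  · have hl' : l = 2 ^ d := by
      refine le_antisymm (hl.2 ⟨le_rfl, fun h => ?_⟩) hl.1.1
      have := Nat.le_of_dvd (by omega) h
      have := Nat.pow_lt_pow_right (a := 2) (by norm_num) hdk
      omega
    rw [hl', show 2 ^ d * 2 ^ k + 1 - 2 ^ d = (2 ^ k - 1) * 2 ^ d + 1 by omega]
    refine ⟨fun A _ hc => ?_, fun L hL => ?_⟩
    · by_contra h
      have := hup A h
      omega
    · by_contra hlt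
      refine free_A0 (d := d) hn (hL (A0 d (2 ^ k)) ?_ (by rw [card_A0]; omega))
      unfold A0
      rw [sum_rep _ fun _ => 2 ^ k - 1, ← Finset.smul_sum, ← map_sum]
      apply smul_eq_zero_of_right
      ext i
      rw [cst_apply, Pi.zero_apply, ZMod.intCast_zmod_eq_zero_iff_dvd, Finset.sum_apply]
      have h1 := sum_e0 i
      obtain ⟨r, rfl⟩ : ∃ r, d = k + r + 1 := ⟨d - k - 1, by omega⟩
      refine ⟨2 ^ r, ?_⟩
      push_cast
      have : (2 : ℤ) ^ (k + r + 1) = 2 * (2 ^ k * 2 ^ r) := by ring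
      linarith

end Pool.Agent.Results.MP_4c442e_co.BW
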